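import Pool.Agent.Lib.MP_a55e6f_al.Uni.Interfaces

/-!
# MP_a55e6f_al: sorted monomials and adapted bases (helper63)
-/

set_option autoImplicit false

universe u

attribute [local instance 100] LieRing.ofAssociativeRing

namespace Pool.Agent.A55u.H63

section mono
variable {Q J I : Type u} [Monoid Q] [LinearOrder J] [LinearOrder I]

theorem mono_zero (x : J → Q) : mono x 0 = 1 := by simp [mono]

theorem mono_singleton (x : J → Q) (j : J) : mono x {j} = x j := by simp [mono]

theorem mono_map (x : J → Q) (f : I → J) (hf : StrictMono f) (s : Multiset I) :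
    mono x (s.map f) = mono (fun i => x (f i)) s := by
  unfold mono
  rw [← Multiset.map_sort (r := (· ≤ ·)) (r' := (· ≤ ·)) f s
    (fun a _ b _ => (hf.le_iff_le).symm), List.map_map]
  rfl

theorem mono_add (x : J → Q) (s t : Multiset J) (h : ∀ a ∈ s, ∀ b ∈ t, a ≤ b) :
    mono x (s + t) = mono x s * mono x t := by
  unfold mono
  have h1 : (s + t).sort (· ≤ ·) = s.sort (· ≤ ·) ++ t.sort (· ≤ ·) := by
    refine List.Perm.eq_of_pairwise' (r := (· ≤ ·)) (Multiset.pairwise_sort _ _) ?_ ?_
    · rw [List.pairwise_append]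
      refine ⟨Multiset.pairwise_sort _ _, Multiset.pairwise_sort _ _, ?_⟩
      intro a ha b hb
      rw [Multiset.mem_sort] at ha hb
      exact h a ha b hb
    · rw [← Multiset.coe_eq_coe, ← Multiset.coe_add]
      simp only [Multiset.sort_eq]
  rw [h1, List.map_append, List.prod_append]

theorem exists_add_map {α β : Type u} (s : Multiset (α ⊕ₗ β)) :
    ∃ (s₁ : Multiset α) (s₂ : Multiset β),
      s = s₁.map (fun a => toLex (Sum.inl a)) + s₂.map (fun b => toLex (Sum.inr b)) := by
  induction s using Multiset.induction_on with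
  | empty => exact ⟨0, 0, by simp⟩
  | cons a s ih =>
    obtain ⟨s₁, s₂, rfl⟩ := ih
    rcases h : ofLex a with c | c
    · refine ⟨c ::ₘ s₁, s₂, ?_⟩
      have : a = toLex (Sum.inl c) := by rw [← h]; rfl
      rw [this, Multiset.map_cons, Multiset.cons_add]
    · refine ⟨s₁, c ::ₘ s₂, ?_⟩
      have : a = toLex (Sum.inr c) := by rw [← h]; rfl
      rw [this, Multiset.map_cons, Multiset.add_cons]

theorem add_map_inj {α β : Type u} {s₁ t₁ : Multiset α} {s₂ t₂ : Multiset β}
    (h : s₁.map (fun a => (toLex (Sum.inl a) : α ⊕ₗ β)) + s₂.map (fun b => toLex (Sum.inr b)) =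
      t₁.map (fun a => toLex (Sum.inl a)) + t₂.map (fun b => toLex (Sum.inr b))) :
    s₁ = t₁ ∧ s₂ = t₂ := by
  have key : ∀ (u : Multiset α) (v : Multiset β),
      (u.map (fun a => (toLex (Sum.inl a) : α ⊕ₗ β)) +
        v.map (fun b => toLex (Sum.inr b))).filterMap (fun c => Sum.getLeft? (ofLex c)) = u := by
    intro u v
    rw [Multiset.filterMap_add, Multiset.filterMap_map, Multiset.filterMap_map]
    have h1 : (fun c : α ⊕ₗ β => Sum.getLeft? (ofLex c)) ∘ (fun a => toLex (Sum.inl a)) = some := by
      funext a; rfl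
    have h2 : (fun c : α ⊕ₗ β => Sum.getLeft? (ofLex c)) ∘ (fun b => toLex (Sum.inr b)) =
        fun _ => none := by
      funext a; rfl
    rw [h1, h2, Multiset.filterMap_some]
    induction v using Multiset.induction_on with
    | empty => simp
    | cons a s ih => rw [Multiset.filterMap_cons_none _ _ rfl]; exact ih
  have key2 : ∀ (u : Multiset α) (v : Multiset β),
      (u.map (fun a => (toLex (Sum.inl a) : α ⊕ₗ β)) +
        v.map (fun b => toLex (Sum.inr b))).filterMap (fun c => Sum.getRight? (ofLex c)) = v := by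
    intro u v
    rw [Multiset.filterMap_add, Multiset.filterMap_map, Multiset.filterMap_map]
    have h1 : (fun c : α ⊕ₗ β => Sum.getRight? (ofLex c)) ∘ (fun a => toLex (Sum.inl a)) =
        fun _ => none := by
      funext a; rfl
    have h2 : (fun c : α ⊕ₗ β => Sum.getRight? (ofLex c)) ∘ (fun b => toLex (Sum.inr b)) =
        some := by
      funext a; rfl
    rw [h1, h2, Multiset.filterMap_some]
    induction u using Multiset.induction_on with
    | empty => simp
    | cons a s ih => rw [Multiset.filterMap_cons_none _ _ rfl]; exact ih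
  constructor
  · rw [← key s₁ s₂, h, key]
  · rw [← key2 s₁ s₂, h, key2]

theorem inl_strictMono {α β : Type u} [LinearOrder α] [LinearOrder β] :
    StrictMono (fun a : α => (toLex (Sum.inl a) : α ⊕ₗ β)) := Sum.Lex.inl_strictMono

theorem inr_strictMono {α β : Type u} [LinearOrder α] [LinearOrder β] :
    StrictMono (fun b : β => (toLex (Sum.inr b) : α ⊕ₗ β)) := Sum.Lex.inr_strictMono

/-- The sorted monomial of a multiset over a lexicographic sum. -/
theorem mono_split {α β : Type u} [LinearOrder α] [LinearOrder β] (x : α ⊕ₗ β → Q)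
    (s : Multiset α) (t : Multiset β) :
    mono x (s.map (fun a => toLex (Sum.inl a)) + t.map (fun b => toLex (Sum.inr b))) =
      mono (fun a => x (toLex (Sum.inl a))) s * mono (fun b => x (toLex (Sum.inr b))) t := by
  rw [mono_add, mono_map x _ inl_strictMono, mono_map x _ inr_strictMono]
  intro a ha b hb
  rw [Multiset.mem_map] at ha hb
  obtain ⟨a, -, rfl⟩ := ha
  obtain ⟨b, -, rfl⟩ := hb
  exact (Sum.Lex.inl_lt_inr a b).le

end mono

section adapted
variable {k B : Type u} [Field k] [Ring B] [Algebra k B]

/-- A linear order on any type. -/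
@[reducible] noncomputable def someOrder (α : Type u) : LinearOrder α :=
  @IsWellOrder.linearOrder α WellOrderingRel _

/-- A basis of `G` adapted to `H ≤ G`, the part of `H` last. -/
theorem exists_adapted_right (G H : LieSubalgebra k B) (hHG : H ≤ G) :
    ∃ (I I' : Type u) (_ : LinearOrder I) (_ : LinearOrder I') (b : Module.Basis (I ⊕ₗ I') k G),
      Submodule.span k (Set.range fun i : I' => (b (toLex (Sum.inr i)) : B)) = H.toSubmodule := by
  let H' : Submodule k G := H.toSubmodule.comap G.toSubmodule.subtype
  obtain ⟨K, hK⟩ := Submodule.exists_isCompl H'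
  let bK := Module.Basis.ofVectorSpace k K
  let bH := Module.Basis.ofVectorSpace k H'
  let b0 := (bK.prod bH).map (Submodule.prodEquivOfIsCompl K H' hK.symm)
  refine ⟨_, _, someOrder _, someOrder _, b0.reindex toLex, ?_⟩
  have h1 : ∀ i, ((b0.reindex toLex) (toLex (Sum.inr i)) : G) = (bH i : G) := by
    intro i
    rw [Module.Basis.reindex_apply]
    simp [b0]
  have h2 : (fun i => (((b0.reindex toLex) (toLex (Sum.inr i)) : G) : B)) =
      fun i => G.toSubmodule.subtype (H'.subtype (bH i)) := by
    funext i
    rw [h1]; rfl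
  rw [h2]
  have h3 : Set.range (fun i => G.toSubmodule.subtype (H'.subtype (bH i))) =
      (G.toSubmodule.subtype ∘ₗ H'.subtype) '' Set.range bH := by
    rw [← Set.range_comp]; rfl
  rw [h3, Submodule.span_image, bH.span_eq, Submodule.map_top, LinearMap.range_comp,
    Submodule.range_subtype, Submodule.map_comap_subtype]
  exact inf_eq_right.2 hHG

/-- A basis of `G` adapted to `H ≤ G`, the part of `H` first. -/
theorem exists_adapted_left (G H : LieSubalgebra k B) (hHG : H ≤ G) :
    ∃ (I I' : Type u) (_ : LinearOrder I) (_ : LinearOrder I') (b : Module.Basis (I ⊕ₗ I') k G),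
      Submodule.span k (Set.range fun i : I => (b (toLex (Sum.inl i)) : B)) = H.toSubmodule := by
  let H' : Submodule k G := H.toSubmodule.comap G.toSubmodule.subtype
  obtain ⟨K, hK⟩ := Submodule.exists_isCompl H'
  let bK := Module.Basis.ofVectorSpace k K
  let bH := Module.Basis.ofVectorSpace k H'
  let b0 := (bH.prod bK).map (Submodule.prodEquivOfIsCompl H' K hK)
  refine ⟨_, _, someOrder _, someOrder _, b0.reindex toLex, ?_⟩
  have h1 : ∀ i, ((b0.reindex toLex) (toLex (Sum.inl i)) : G) = (bH i : G) := by
    intro i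
    rw [Module.Basis.reindex_apply]
    simp [b0]
  have h2 : (fun i => (((b0.reindex toLex) (toLex (Sum.inl i)) : G) : B)) =
      fun i => G.toSubmodule.subtype (H'.subtype (bH i)) := by
    funext i
    rw [h1]; rfl
  rw [h2]
  have h3 : Set.range (fun i => G.toSubmodule.subtype (H'.subtype (bH i))) =
      (G.toSubmodule.subtype ∘ₗ H'.subtype) '' Set.range bH := by
    rw [← Set.range_comp]; rfl
  rw [h3, Submodule.span_image, bH.span_eq, Submodule.map_top, LinearMap.range_comp,
    Submodule.range_subtype, Submodule.map_comap_subtype]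
  exact inf_eq_right.2 hHG

end adapted

section aug
variable {k B : Type u} [Field k] [Ring B] [Algebra k B]

/-- The augmentation of the enveloping algebra. -/
theorem exists_aug {G : LieSubalgebra k B} (hG : EnvPair G) :
    ∃ ε : B →ₐ[k] k, ∀ g ∈ G, ε g = 0 := by
  obtain ⟨F, hF⟩ := hG.ext k 0
  exact ⟨F, fun g hg => by simpa using hF ⟨g, hg⟩⟩

theorem comm_mem_span {G : LieSubalgebra k B} {J : Type u} {x : J → B}
    (h : Submodule.span k (Set.range x) = G.toSubmodule) (i j : J) :
    x i * x j - x j * x i ∈ Submodule.span k (Set.range x) := by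
  have hx : ∀ i, x i ∈ G := by
    intro i
    have : x i ∈ G.toSubmodule := by rw [← h]; exact Submodule.subset_span ⟨i, rfl⟩
    exact this
  have := G.lie_mem (hx i) (hx j)
  rw [h]
  rw [LieRing.of_associative_ring_bracket] at this
  exact this

theorem adjoin_range_eq {G : LieSubalgebra k B} {J : Type u} {x : J → B}
    (h : Submodule.span k (Set.range x) = G.toSubmodule) :
    Algebra.adjoin k (Set.range x) = Algebra.adjoin k (G : Set B) := by
  rw [← Algebra.adjoin_span, h]; rfl

end aug

end Pool.Agent.A55u.H63
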