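import Pool.Agent.Lib.MP_a55e6f_al.Uni.H63.Adapted

/-!
# MP_a55e6f_al: modules P0, P1, P2 (helper63)
-/

set_option autoImplicit false

universe u

attribute [local instance 100] LieRing.ofAssociativeRing

namespace Pool.Agent.A55u.H63

section general
variable {k B : Type u} [Field k] [Ring B] [Algebra k B]

theorem map_mono {J R : Type u} [LinearOrder J] [Ring R] [Algebra k R] (ε : B →ₐ[k] R) (x : J → B)
    (s : Multiset J) : ε (mono x s) = mono (fun j => ε (x j)) s := by
  unfold mono
  rw [map_list_prod, List.map_map]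
  rfl

theorem mono_zero_fun {J R : Type u} [LinearOrder J] [MonoidWithZero R] (s : Multiset J)
    (hs : s ≠ 0) : mono (fun _ => (0 : R)) s = 0 := by
  unfold mono
  obtain ⟨a, ha⟩ := Multiset.exists_mem_of_ne_zero hs
  refine List.prod_eq_zero ?_
  rw [List.mem_map]
  exact ⟨a, (Multiset.mem_sort _).2 ha, rfl⟩

/-- An element of `adjoin H` with augmentation zero is a combination of nonempty sorted
monomials. -/
theorem mem_span_of_aug {J : Type u} [LinearOrder J] {x : J → B} {S : Subalgebra k B}
    (hS : Submodule.span k (Set.range fun s : Multiset J => mono x s) = Subalgebra.toSubmodule S)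
    (ε : B →ₐ[k] k) (hε : ∀ j, ε (x j) = 0) {u : B} (hu : u ∈ S) (hu0 : ε u = 0) :
    u ∈ Submodule.span k ((fun s : Multiset J => mono x s) '' {s | s ≠ 0}) := by
  have h1 : Set.range (fun s : Multiset J => mono x s) =
      {(1 : B)} ∪ (fun s : Multiset J => mono x s) '' {s | s ≠ 0} := by
    ext y
    constructor
    · rintro ⟨s, rfl⟩
      by_cases hs : s = 0
      · left; subst hs; exact mono_zero x
      · right; exact ⟨s, hs, rfl⟩
    · rintro (h | ⟨s, -, rfl⟩)
      · exact ⟨0, by rw [Set.mem_singleton_iff.1 h]; exact mono_zero x⟩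
      · exact ⟨s, rfl⟩
  have h2 : u ∈ Submodule.span k (Set.range fun s : Multiset J => mono x s) := by
    rw [hS]; exact hu
  rw [h1, Submodule.span_union, Submodule.mem_sup] at h2
  obtain ⟨y, hy, v, hv, rfl⟩ := h2
  obtain ⟨c, rfl⟩ := Submodule.mem_span_singleton.1 hy
  have h3 : ∀ v ∈ Submodule.span k ((fun s : Multiset J => mono x s) '' {s | s ≠ 0}), ε v = 0 := by
    intro v hv
    refine Submodule.span_induction ?_ (map_zero _) ?_ ?_ hv
    · rintro _ ⟨s, hs, rfl⟩
      show ε (mono x s) = 0
      rw [map_mono]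
      simp only [hε]
      exact mono_zero_fun s hs
    · intro a b _ _ ha hb; rw [map_add, ha, hb, add_zero]
    · intro a b _ hb; rw [map_smul, hb, smul_zero]
  rw [map_add, h3 v hv, map_smul, map_one, smul_eq_mul, mul_one, add_zero] at hu0
  rw [hu0, zero_smul, zero_add]
  exact hv

end general

/-- P1 -/
theorem p1 (hPBW : PBWStatement.{u}) (hSP : SpanStatement.{u}) : P1Statement.{u} := by
  intro k M _ _ G hG H hHG g hg hgI
  obtain ⟨I, I', _, _, b, hb⟩ := exists_adapted_right G H hHG
  obtain ⟨ε, hε⟩ := exists_aug hG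
  set x : I ⊕ₗ I' → MonoidAlgebra k M := fun j => (b j : MonoidAlgebra k M) with hx
  obtain ⟨hli, hspan⟩ := hPBW k M G hG _ b
  change LinearIndependent k (fun s => mono x s) at hli
  change Submodule.span k (Set.range fun s => mono x s) = ⊤ at hspan
  set xK : I → MonoidAlgebra k M := fun i => x (toLex (Sum.inl i)) with hxK
  set xH : I' → MonoidAlgebra k M := fun i => x (toLex (Sum.inr i)) with hxH
  change Submodule.span k (Set.range xH) = H.toSubmodule at hb
  have hxG : ∀ j, x j ∈ G := fun j => (b j).2
  have hSH := hSP k (MonoidAlgebra k M) I' xH (comm_mem_span hb)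
  rw [adjoin_range_eq hb] at hSH
  -- the span of the sorted monomials with a factor in `H`
  let S2 : Set (Multiset (I ⊕ₗ I')) := {s | ∃ (s₁ : Multiset I) (t : Multiset I'), t ≠ 0 ∧
    s = s₁.map (fun a => toLex (Sum.inl a)) + t.map (fun c => toLex (Sum.inr c))}
  let N : Submodule k (MonoidAlgebra k M) := Submodule.span k ((fun s => mono x s) '' S2)
  have hN1 : ∀ (s : Multiset I) (u : MonoidAlgebra k M),
      u ∈ Submodule.span k ((fun t : Multiset I' => mono xH t) '' {t | t ≠ 0}) →
      mono xK s * u ∈ N := by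
    intro s u hu
    refine Submodule.span_induction ?_ ?_ ?_ ?_ hu
    · rintro _ ⟨t, ht, rfl⟩
      refine Submodule.subset_span ⟨_, ⟨s, t, ht, rfl⟩, ?_⟩
      show mono x _ = mono xK s * mono xH t
      rw [mono_split]
    · rw [mul_zero]; exact N.zero_mem
    · intro a c _ _ ha hc; rw [mul_add]; exact N.add_mem ha hc
    · intro a c _ hc; rw [mul_smul_comm]; exact N.smul_mem _ hc
  have hN2 : ∀ (a : MonoidAlgebra k M) (h : MonoidAlgebra k M), h ∈ H → a * h ∈ N := by
    intro a h hh
    have ha : a ∈ Submodule.span k (Set.range fun s => mono x s) := by rw [hspan]; trivial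
    refine Submodule.span_induction ?_ ?_ ?_ ?_ ha
    · rintro _ ⟨s, rfl⟩
      obtain ⟨s₁, s₂, rfl⟩ := exists_add_map s
      show mono x _ * h ∈ N
      rw [mono_split, mul_assoc]
      refine hN1 s₁ _ (mem_span_of_aug hSH ε (fun j => hε _ (hxG _)) ?_ ?_)
      · refine Subalgebra.mul_mem _ ?_ (Algebra.subset_adjoin hh)
        have : mono xH s₂ ∈ Submodule.span k (Set.range fun s => mono xH s) :=
          Submodule.subset_span ⟨s₂, rfl⟩
        rw [hSH] at this
        exact this
      · rw [map_mul, hε h (hHG hh), mul_zero]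
    · rw [zero_mul]; exact N.zero_mem
    · intro a c _ _ ha hc; rw [add_mul]; exact N.add_mem ha hc
    · intro a c _ hc; rw [smul_mul_assoc]; exact N.smul_mem _ hc
  have hgN : ∀ a, a * g ∈ N := by
    refine Submodule.span_induction (p := fun g _ => ∀ a, a * g ∈ N) ?_ ?_ ?_ ?_ hgI
    · intro h hh a; exact hN2 a h hh
    · intro a; rw [mul_zero]; exact N.zero_mem
    · intro c d _ _ hc hd a; rw [mul_add]; exact N.add_mem (hc a) (hd a)
    · intro c d _ hd a; rw [smul_eq_mul, ← mul_assoc]; exact hd _
  -- split `g`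
  have hGspan : Submodule.span k (Set.range x) = G.toSubmodule := by
    have h1 : Set.range x = G.toSubmodule.subtype '' Set.range b := by
      rw [← Set.range_comp]; rfl
    rw [h1, Submodule.span_image, b.span_eq, Submodule.map_top, Submodule.range_subtype]
  have hsplit : Set.range x = Set.range xK ∪ Set.range xH := by
    ext y
    constructor
    · rintro ⟨j, rfl⟩
      rcases h : ofLex j with c | c
      · left; exact ⟨c, by show x (toLex (Sum.inl c)) = x j; rw [← h]; rfl⟩
      · right; exact ⟨c, by show x (toLex (Sum.inr c)) = x j; rw [← h]; rfl⟩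
    · rintro (⟨i, rfl⟩ | ⟨i, rfl⟩)
      · exact ⟨_, rfl⟩
      · exact ⟨_, rfl⟩
  have hg' : g ∈ Submodule.span k (Set.range x) := by rw [hGspan]; exact hg
  rw [hsplit, Submodule.span_union, Submodule.mem_sup] at hg'
  obtain ⟨gK, hgK, gH, hgH, hsum⟩ := hg'
  rw [hb] at hgH
  have hgKN : gK ∈ N := by
    have h1 : gK = 1 * g - 1 * gH := by rw [one_mul, one_mul, ← hsum]; simp
    rw [h1]
    exact N.sub_mem (hgN 1) (hN2 1 gH hgH)
  let S1 : Set (Multiset (I ⊕ₗ I')) := {s | ∃ i : I, s = {toLex (Sum.inl i)}}
  have hgK1 : gK ∈ Submodule.span k ((fun s => mono x s) '' S1) := by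
    refine Submodule.span_mono ?_ hgK
    rintro _ ⟨i, rfl⟩
    exact ⟨_, ⟨i, rfl⟩, mono_singleton x _⟩
  have hdisj : Disjoint S1 S2 := by
    rw [Set.disjoint_left]
    rintro s ⟨i, rfl⟩ ⟨s₁, t, ht, h⟩
    have h2 : ({i} : Multiset I).map (fun a => (toLex (Sum.inl a) : I ⊕ₗ I')) +
        (0 : Multiset I').map (fun c => toLex (Sum.inr c)) =
        s₁.map (fun a => toLex (Sum.inl a)) + t.map (fun c => toLex (Sum.inr c)) := by
      rw [← h]; simp
    exact ht (add_map_inj h2).2.symm
  have h0 : gK = 0 := by
    have := (hli.disjoint_span_image hdisj).le_bot ⟨hgK1, hgKN⟩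
    simpa using this
  rw [← hsum, h0, zero_add]
  exact hgH

/-- P2 -/
theorem p2 (hP1 : P1Statement.{u}) : P2Statement.{u} := by
  intro k M _ _ G hG D hDG g hg hgD
  obtain ⟨ε, hε⟩ := exists_aug hG
  have key : ∀ u ∈ Algebra.adjoin k (D : Set (MonoidAlgebra k M)),
      u - algebraMap k _ (ε u) ∈ Ideal.span (D : Set (MonoidAlgebra k M)) := by
    intro u hu
    refine Algebra.adjoin_induction ?_ ?_ ?_ ?_ hu
    · intro x hx
      rw [hε x (hDG hx), map_zero, sub_zero]
      exact Ideal.subset_span hx
    · intro r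
      rw [AlgHom.commutes]
      simp
    · intro x y _ _ hx hy
      rw [map_add, map_add]
      have : x + y - (algebraMap k (MonoidAlgebra k M) (ε x) + algebraMap k _ (ε y)) =
          (x - algebraMap k _ (ε x)) + (y - algebraMap k _ (ε y)) := by abel
      rw [this]
      exact Ideal.add_mem _ hx hy
    · intro x y _ _ hx hy
      rw [map_mul, map_mul]
      have : x * y - algebraMap k (MonoidAlgebra k M) (ε x) * algebraMap k _ (ε y) =
          x * (y - algebraMap k _ (ε y)) +
            algebraMap k _ (ε y) * (x - algebraMap k _ (ε x)) := by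
        rw [mul_sub, mul_sub, ← Algebra.commutes (ε y) x,
          ← Algebra.commutes (ε y) (algebraMap k (MonoidAlgebra k M) (ε x))]
        abel
      rw [this]
      exact Ideal.add_mem _ (Ideal.mul_mem_left _ _ hy) (Ideal.mul_mem_left _ _ hx)
  refine hP1 k M G hG D hDG g hg ?_
  have := key g hgD
  rwa [hε g hg, map_zero, sub_zero] at this

theorem adjoin_range_ι (k L : Type u) [Field k] [LieRing L] [LieAlgebra k L] :
    Algebra.adjoin k (Set.range (UniversalEnvelopingAlgebra.ι k : L → UniversalEnvelopingAlgebra k L))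
      = ⊤ := by
  set S := Algebra.adjoin k
    (Set.range (UniversalEnvelopingAlgebra.ι k : L → UniversalEnvelopingAlgebra k L)) with hS
  let f : L →ₗ⁅k⁆ S :=
    { toFun := fun l => ⟨UniversalEnvelopingAlgebra.ι k l, Algebra.subset_adjoin ⟨l, rfl⟩⟩
      map_add' := fun a b => by ext; simp
      map_smul' := fun a b => by ext; simp
      map_lie' := fun {a b} => by
        apply Subtype.ext
        rw [LieRing.of_associative_ring_bracket]
        simp [LieRing.of_associative_ring_bracket] }
  have h : (S.val.comp (UniversalEnvelopingAlgebra.lift k f)) =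
      AlgHom.id k (UniversalEnvelopingAlgebra k L) := by
    apply UniversalEnvelopingAlgebra.hom_ext
    ext l
    simp [f]
  rw [eq_top_iff]
  intro u _
  have h2 := DFunLike.congr_fun h u
  simp only [AlgHom.comp_apply, AlgHom.id_apply, Subalgebra.coe_val] at h2
  rw [← h2]
  exact (UniversalEnvelopingAlgebra.lift k f u).2

theorem injective_of_span {k V W ι : Type u} [Field k] [AddCommGroup V] [Module k V]
    [AddCommGroup W] [Module k W] (φ : V →ₗ[k] W) (v : ι → V)
    (hv : Submodule.span k (Set.range v) = ⊤) (hli : LinearIndependent k (fun i => φ (v i))) :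
    Function.Injective φ := by
  rw [← LinearMap.ker_eq_bot, LinearMap.ker_eq_bot']
  intro u hu
  have h1 : u ∈ Submodule.span k (Set.range v) := by rw [hv]; trivial
  rw [Finsupp.mem_span_range_iff_exists_finsupp] at h1
  obtain ⟨c, rfl⟩ := h1
  have h2 : Finsupp.linearCombination k (fun i => φ (v i)) c = 0 := by
    rw [Finsupp.linearCombination_apply, ← hu, map_finsuppSum]
    simp
  have h3 : c = 0 := (linearIndependent_iff.1 hli) c h2
  rw [h3]
  simp

/-- P0 -/
theorem p0 (hPBW : PBWStatement.{u}) (hSP : SpanStatement.{u}) : P0Statement.{u} := by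
  intro k M _ _ G hG C hCG Q _ _ f
  obtain ⟨I, I', _, _, b, hb⟩ := exists_adapted_right G C hCG
  set x : I ⊕ₗ I' → MonoidAlgebra k M := fun j => (b j : MonoidAlgebra k M) with hx
  obtain ⟨hli, -⟩ := hPBW k M G hG _ b
  change LinearIndependent k (fun s => mono x s) at hli
  set xH : I' → MonoidAlgebra k M := fun i => x (toLex (Sum.inr i)) with hxH
  change Submodule.span k (Set.range xH) = C.toSubmodule at hb
  have hmem : ∀ i, xH i ∈ C := by
    intro i
    have : xH i ∈ C.toSubmodule := by rw [← hb]; exact Submodule.subset_span ⟨i, rfl⟩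
    exact this
  let c : I' → C := fun i => ⟨xH i, hmem i⟩
  have hc : Submodule.span k (Set.range c) = ⊤ := by
    apply Submodule.map_injective_of_injective (f := C.toSubmodule.subtype)
      (Submodule.injective_subtype _)
    rw [Submodule.map_top, Submodule.range_subtype, Submodule.map_span, ← Set.range_comp]
    exact hb
  let y : I' → UniversalEnvelopingAlgebra k C := fun i => UniversalEnvelopingAlgebra.ι k (c i)
  have hy : Set.range y = (UniversalEnvelopingAlgebra.ι k : C →ₗ⁅k⁆ _) '' Set.range c := by
    rw [← Set.range_comp]; rfl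
  have hyspan : Submodule.span k (Set.range y) =
      LinearMap.range ((UniversalEnvelopingAlgebra.ι k : C →ₗ⁅k⁆ UniversalEnvelopingAlgebra k C) :
        C →ₗ[k] UniversalEnvelopingAlgebra k C) := by
    rw [← Submodule.map_top, ← hc, Submodule.map_span]
    congr 1
  have hcomm : ∀ i j, y i * y j - y j * y i ∈ Submodule.span k (Set.range y) := by
    intro i j
    rw [hyspan]
    refine ⟨⁅c i, c j⁆, ?_⟩
    show (UniversalEnvelopingAlgebra.ι k) ⁅c i, c j⁆ = _
    rw [LieHom.map_lie, LieRing.of_associative_ring_bracket]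
  have hadj : Algebra.adjoin k (Set.range y) = ⊤ := by
    rw [← Algebra.adjoin_span, hyspan, ← adjoin_range_ι]
    congr 1
  have hspan := hSP k (UniversalEnvelopingAlgebra k C) I' y hcomm
  rw [hadj, Algebra.top_toSubmodule] at hspan
  let φ : UniversalEnvelopingAlgebra k C →ₐ[k] MonoidAlgebra k M :=
    UniversalEnvelopingAlgebra.lift k C.incl
  have hφι : ∀ a : C, φ (UniversalEnvelopingAlgebra.ι k a) = (a : MonoidAlgebra k M) := by
    intro a
    simp [φ]
  have hφ : Function.Injective φ := by
    refine injective_of_span φ.toLinearMap (fun s : Multiset I' => mono y s) hspan ?_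
    have h1 : (fun s : Multiset I' => φ.toLinearMap (mono y s)) =
        (fun s => mono x s) ∘ (fun s : Multiset I' => s.map (fun a => toLex (Sum.inr a))) := by
      funext s
      show φ (mono y s) = mono x (s.map (fun a => toLex (Sum.inr a)))
      rw [map_mono, mono_map x _ inr_strictMono]
      congr 1
      funext j
      exact hφι (c j)
    rw [h1]
    refine hli.comp _ ?_
    exact Multiset.map_injective (inr_strictMono (α := I)).injective
  have hle : Algebra.adjoin k (C : Set (MonoidAlgebra k M)) ≤ φ.range := by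
    refine Algebra.adjoin_le ?_
    intro a ha
    exact ⟨UniversalEnvelopingAlgebra.ι k ⟨a, ha⟩, hφι ⟨a, ha⟩⟩
  refine ⟨((UniversalEnvelopingAlgebra.lift k f).comp
    ((AlgEquiv.ofInjective φ hφ).symm : φ.range →ₐ[k] UniversalEnvelopingAlgebra k C)).comp
    (Subalgebra.inclusion hle), ?_⟩
  intro a
  have h1 : (AlgEquiv.ofInjective φ hφ).symm
      (Subalgebra.inclusion hle ⟨(a : MonoidAlgebra k M), Algebra.subset_adjoin a.2⟩) =
      UniversalEnvelopingAlgebra.ι k a := by
    rw [AlgEquiv.symm_apply_eq]
    apply Subtype.ext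
    rw [AlgEquiv.ofInjective_apply, hφι]
    rfl
  show (UniversalEnvelopingAlgebra.lift k f) ((AlgEquiv.ofInjective φ hφ).symm
      (Subalgebra.inclusion hle ⟨(a : MonoidAlgebra k M), Algebra.subset_adjoin a.2⟩)) = f a
  rw [h1, UniversalEnvelopingAlgebra.lift_ι_apply]

end Pool.Agent.A55u.H63
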